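import Pool.Agent.Y6.K.Stm

/-!
Decomposition of the quadratic term.
-/

open Set Filter Topology MeasureTheory

set_option autoImplicit false

namespace Pool.Agent.Y362.EK

open Pool.Agent.Y5 Pool.Agent.Y5.D Pool.Agent.Y6.K

section gen

variable {I : Type}

/-- Schur bound, weights on the first index. -/
lemma schur1 (k : I → I → ℝ) (R : ℝ) (D : ℕ) (hR0 : 0 ≤ R) (hR : ∀ a b, |k a b| ≤ R)
    (hd : ∀ a, {b | k a b ≠ 0}.Finite ∧ {b | k a b ≠ 0}.ncard ≤ D) (f : I → ℝ)
    (hf0 : ∀ a, 0 ≤ f a) (hf : Summable f) :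
    Summable (fun p : I × I => |k p.1 p.2| * f p.1) ∧
      ∑' p : I × I, |k p.1 p.2| * f p.1 ≤ R * D * ∑' a, f a := by
  classical
  have hsup : ∀ a, ∀ b ∉ (hd a).1.toFinset, |k a b| * f a = 0 := by
    intro a b hb
    rw [Set.Finite.mem_toFinset, Set.mem_setOf_eq, not_not] at hb
    rw [hb, abs_zero, zero_mul]
  have hrow : ∀ a, Summable (fun b => |k a b| * f a) := fun a =>
    summable_of_ne_finset_zero (s := (hd a).1.toFinset) (fun b hb => hsup a b hb)
  have hrow' : ∀ a, ∑' b, |k a b| * f a ≤ R * D * f a := by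
    intro a
    rw [tsum_eq_sum (hsup a)]
    calc ∑ b ∈ (hd a).1.toFinset, |k a b| * f a
        ≤ ∑ _b ∈ (hd a).1.toFinset, R * f a :=
          Finset.sum_le_sum (fun b _ => mul_le_mul_of_nonneg_right (hR a b) (hf0 a))
      _ = ((hd a).1.toFinset.card : ℝ) * (R * f a) := by rw [Finset.sum_const, nsmul_eq_mul]
      _ ≤ (D : ℝ) * (R * f a) := by
          apply mul_le_mul_of_nonneg_right _ (mul_nonneg hR0 (hf0 a))
          have := (hd a).2
          rw [Set.ncard_eq_toFinset_card _ (hd a).1] at this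
          exact_mod_cast this
      _ = R * D * f a := by ring
  have hnn : 0 ≤ fun p : I × I => |k p.1 p.2| * f p.1 :=
    fun p => mul_nonneg (abs_nonneg _) (hf0 _)
  have hs2 : Summable (fun a => ∑' b, |k a b| * f a) :=
    Summable.of_nonneg_of_le (fun a => tsum_nonneg (fun b => mul_nonneg (abs_nonneg _) (hf0 _)))
      hrow' (hf.mul_left (R * D))
  have hs : Summable (fun p : I × I => |k p.1 p.2| * f p.1) :=
    (summable_prod_of_nonneg hnn).mpr ⟨hrow, hs2⟩
  refine ⟨hs, ?_⟩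
  rw [hs.tsum_prod' hrow, ← tsum_mul_left]
  exact hs2.tsum_le_tsum hrow' (hf.mul_left (R * D))

/-- Schur bound, weights on the second index. -/
lemma schur2 (k : I → I → ℝ) (R : ℝ) (D : ℕ) (hR0 : 0 ≤ R) (hR : ∀ a b, |k a b| ≤ R)
    (hd : ∀ a, {b | k b a ≠ 0}.Finite ∧ {b | k b a ≠ 0}.ncard ≤ D) (f : I → ℝ)
    (hf0 : ∀ a, 0 ≤ f a) (hf : Summable f) :
    Summable (fun p : I × I => |k p.1 p.2| * f p.2) ∧
      ∑' p : I × I, |k p.1 p.2| * f p.2 ≤ R * D * ∑' a, f a := by
  obtain ⟨h1, h2⟩ := schur1 (fun a b => k b a) R D hR0 (fun a b => hR b a) hd f hf0 hf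
  refine ⟨(Equiv.prodComm I I).summable_iff.mp ?_, ?_⟩
  · exact h1
  · rw [← (Equiv.prodComm I I).tsum_eq (fun p : I × I => |k p.1 p.2| * f p.2)]
    exact h2

/-- Schur bound, both indices. -/
lemma schur (k : I → I → ℝ) (R : ℝ) (D : ℕ) (hR0 : 0 ≤ R) (hR : ∀ a b, |k a b| ≤ R)
    (hd : ∀ a, ({b | k a b ≠ 0}.Finite ∧ {b | k a b ≠ 0}.ncard ≤ D) ∧
      {b | k b a ≠ 0}.Finite ∧ {b | k b a ≠ 0}.ncard ≤ D) (f : I → ℝ)
    (hf0 : ∀ a, 0 ≤ f a) (hf : Summable f) :
    Summable (fun p : I × I => |k p.1 p.2| * (f p.1 + f p.2)) ∧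
      ∑' p : I × I, |k p.1 p.2| * (f p.1 + f p.2) ≤ 2 * R * D * ∑' a, f a := by
  obtain ⟨h1, h2⟩ := schur1 k R D hR0 hR (fun a => (hd a).1) f hf0 hf
  obtain ⟨h3, h4⟩ := schur2 k R D hR0 hR (fun a => (hd a).2) f hf0 hf
  have he : (fun p : I × I => |k p.1 p.2| * (f p.1 + f p.2))
      = fun p : I × I => |k p.1 p.2| * f p.1 + |k p.1 p.2| * f p.2 := by
    funext p; ring
  rw [he]
  refine ⟨h1.add h3, ?_⟩
  rw [h1.tsum_add h3]
  linarith

/-- Absolute convergence. -/
lemma absconv (k : I → I → ℝ) (R : ℝ) (D : ℕ) (hR0 : 0 ≤ R) (hR : ∀ a b, |k a b| ≤ R)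
    (hd : ∀ a, ({b | k a b ≠ 0}.Finite ∧ {b | k a b ≠ 0}.ncard ≤ D) ∧
      {b | k b a ≠ 0}.Finite ∧ {b | k b a ≠ 0}.ncard ≤ D) (z : I → ℝ)
    (hz : Summable (fun a => z a ^ 2)) (hz1 : ∑' a, z a ^ 2 ≤ 1) :
    Summable (fun p : I × I => |k p.1 p.2 * z p.1 * z p.2|) ∧
      |∑' p : I × I, k p.1 p.2 * z p.1 * z p.2| ≤ 2 * R * D := by
  obtain ⟨h1, h2⟩ := schur k R D hR0 hR hd (fun a => z a ^ 2) (fun a => sq_nonneg _) hz
  have hle : ∀ p : I × I, |k p.1 p.2 * z p.1 * z p.2|
      ≤ |k p.1 p.2| * (z p.1 ^ 2 + z p.2 ^ 2) := by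
    intro p
    rw [mul_assoc, abs_mul]
    apply mul_le_mul_of_nonneg_left _ (abs_nonneg _)
    rw [abs_le]
    constructor <;> nlinarith [sq_nonneg (z p.1 + z p.2), sq_nonneg (z p.1 - z p.2),
      sq_nonneg (z p.1), sq_nonneg (z p.2)]
  have hs : Summable (fun p : I × I => |k p.1 p.2 * z p.1 * z p.2|) :=
    Summable.of_nonneg_of_le (fun p => abs_nonneg _) hle h1
  refine ⟨hs, ?_⟩
  have h3 : |∑' p : I × I, k p.1 p.2 * z p.1 * z p.2|
      ≤ ∑' p : I × I, |k p.1 p.2 * z p.1 * z p.2| := by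
    have := norm_tsum_le_tsum_norm (f := fun p : I × I => k p.1 p.2 * z p.1 * z p.2) hs
    simpa [Real.norm_eq_abs] using this
  have h4 := hs.tsum_le_tsum hle h1
  have h5 : 2 * R * D * ∑' a, z a ^ 2 ≤ 2 * R * D * 1 :=
    mul_le_mul_of_nonneg_left hz1 (by positivity)
  linarith

/-- The remainder. -/
lemma rem (k : I → I → ℝ) (R : ℝ) (D : ℕ) (hR0 : 0 ≤ R) (hR : ∀ a b, |k a b| ≤ R)
    (hd : ∀ a, ({b | k a b ≠ 0}.Finite ∧ {b | k a b ≠ 0}.ncard ≤ D) ∧
      {b | k b a ≠ 0}.Finite ∧ {b | k b a ≠ 0}.ncard ≤ D) (z : I → ℝ)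
    (hz1 : ∀ a, |z a| ≤ 1) (hsum : Summable (fun p : I × I => |k p.1 p.2 * z p.1 * z p.2|))
    (h : I → ℝ) (h0 : ∀ a, 0 ≤ h a) (hh : Summable h) (Q : Finset (I × I))
    (hQ : ∀ p ∉ Q, k p.1 p.2 ≠ 0 → |z p.1| ≤ h p.1 ∨ |z p.2| ≤ h p.2) :
    |∑' p : I × I, k p.1 p.2 * z p.1 * z p.2 - ∑ p ∈ Q, k p.1 p.2 * z p.1 * z p.2|
      ≤ 2 * R * D * ∑' a, h a := by
  classical
  obtain ⟨h1, h2⟩ := schur k R D hR0 hR hd h h0 hh
  set F : I × I → ℝ := fun p => k p.1 p.2 * z p.1 * z p.2 with hF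
  have hFs : Summable F := hsum.of_abs
  set G : I × I → ℝ := fun p => if p ∈ Q then 0 else F p with hG
  set H : I × I → ℝ := fun p => if p ∈ Q then F p else 0 with hH
  have hHs : HasSum H (∑ p ∈ Q, F p) := by
    have : ∑ p ∈ Q, F p = ∑ p ∈ Q, H p := by
      apply Finset.sum_congr rfl
      intro p hp
      simp only [hH, if_pos hp]
    rw [this]
    apply hasSum_sum_of_ne_finset_zero
    intro p hp
    simp only [hH, if_neg hp]
  have hGH : G = fun p => F p - H p := by
    funext p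
    simp only [hG, hH]
    split_ifs <;> ring
  have hGs : HasSum G (∑' p, F p - ∑ p ∈ Q, F p) := by
    rw [hGH]
    exact hFs.hasSum.sub hHs
  have hle : ∀ p : I × I, |G p| ≤ |k p.1 p.2| * (h p.1 + h p.2) := by
    intro p
    simp only [hG]
    by_cases hp : p ∈ Q
    · rw [if_pos hp, abs_zero]
      exact mul_nonneg (abs_nonneg _) (add_nonneg (h0 _) (h0 _))
    · rw [if_neg hp]
      by_cases hk : k p.1 p.2 = 0
      · simp only [hF]
        rw [hk, zero_mul, zero_mul, abs_zero]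
        simp
      · simp only [hF]
        rw [mul_assoc, abs_mul, abs_mul]
        apply mul_le_mul_of_nonneg_left _ (abs_nonneg _)
        rcases hQ p hp hk with h3 | h3
        · calc |z p.1| * |z p.2| ≤ |z p.1| * 1 :=
                mul_le_mul_of_nonneg_left (hz1 _) (abs_nonneg _)
            _ ≤ h p.1 + h p.2 := by linarith [h0 p.2]
        · calc |z p.1| * |z p.2| ≤ 1 * |z p.2| :=
                mul_le_mul_of_nonneg_right (hz1 _) (abs_nonneg _)
            _ ≤ h p.1 + h p.2 := by linarith [h0 p.1]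
  have hGa : Summable (fun p => |G p|) :=
    Summable.of_nonneg_of_le (fun p => abs_nonneg _) hle h1
  have h6 : |∑' p, G p| ≤ ∑' p, |G p| := by
    have := norm_tsum_le_tsum_norm (f := G) hGa
    simpa [Real.norm_eq_abs] using this
  have h7 := hGa.tsum_le_tsum hle h1
  rw [← hGs.tsum_eq]
  linarith

end gen

/-- `tail` as a sum over all modes. -/
lemma tail_eq {J : Type} (o : J → ℕ) (P : ℕ) (z : Ix J → ℝ)
    (hz : Summable (fun j => |z (Sum.inr j)|)) :
    Summable (Sum.elim (fun _ : ℕ => (0 : ℝ)) (fun j => if P ≤ o j then |z (Sum.inr j)| else 0)) ∧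
      ∑' a, (Sum.elim (fun _ : ℕ => (0 : ℝ))
        (fun j => if P ≤ o j then |z (Sum.inr j)| else 0)) a = tail o P z := by
  have hinj : Function.Injective (Sum.inr : J → ℕ ⊕ J) := Sum.inr_injective
  have hz0 : ∀ x ∉ Set.range (Sum.inr : J → ℕ ⊕ J), (Sum.elim (fun _ : ℕ => (0 : ℝ))
      (fun j => if P ≤ o j then |z (Sum.inr j)| else 0)) x = 0 := by
    intro x hx
    rcases x with n | j
    · rfl
    · exact absurd ⟨j, rfl⟩ hx
  constructor
  · rw [← hinj.summable_iff hz0]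
    apply Summable.of_nonneg_of_le _ _ hz
    · intro j
      simp only [Function.comp, Sum.elim_inr]
      split_ifs
      · exact abs_nonneg _
      · exact le_rfl
    · intro j
      simp only [Function.comp, Sum.elim_inr]
      split_ifs
      · exact le_rfl
      · exact abs_nonneg _
  · rw [← hinj.tsum_eq (f := Sum.elim (fun _ : ℕ => (0 : ℝ))
      (fun j => if P ≤ o j then |z (Sum.inr j)| else 0))]
    · rfl
    · intro x hx
      by_contra hc
      exact hx (hz0 x hc)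

lemma adm_one {J : Type} {z : Ix J → ℝ} (hz : Adm z) (a : Ix J) : |z a| ≤ 1 := by
  have h1 : z a ^ 2 ≤ ∑' b, z b ^ 2 := hz.sq.le_tsum a (fun b _ => sq_nonneg _)
  have h2 := hz.le
  rw [abs_le_one_iff_mul_self_le_one]
  nlinarith

theorem t_DEC : S_DEC := by
  classical
  intro J o σ τ A c hK
  choose Rf hRf using hK.bdd
  obtain ⟨D, hD⟩ := hK.deg
  have hfin : ∀ m, {i : Ix J | lv o i = m}.Finite := by
    intro m
    apply Set.Finite.subset (((Set.finite_singleton m).image Sum.inl).union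
      ((hK.fin m).image Sum.inr))
    intro i hi
    rw [Set.mem_setOf_eq] at hi
    rcases i with n | j
    · left
      exact ⟨n, hi, rfl⟩
    · right
      refine ⟨j, ?_, rfl⟩
      rw [Set.mem_setOf_eq]
      exact le_of_eq hi
  set R : ℕ → ℝ := fun m => 1 + 2 * D * ∑ i ∈ (hfin m).toFinset, |Rf i| with hR
  have hR1 : ∀ m, 1 ≤ R m := by
    intro m
    have : 0 ≤ 2 * (D : ℝ) * ∑ i ∈ (hfin m).toFinset, |Rf i| := by
      apply mul_nonneg (by positivity)
      exact Finset.sum_nonneg (fun i _ => abs_nonneg _)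
    simp only [hR]
    linarith
  have hRi : ∀ i, 2 * |Rf i| * D ≤ R (lv o i) := by
    intro i
    have h1 : |Rf i| ≤ ∑ i ∈ (hfin (lv o i)).toFinset, |Rf i| := by
      apply Finset.single_le_sum (f := fun i => |Rf i|) (fun i _ => abs_nonneg _)
      rw [Set.Finite.mem_toFinset]
      exact rfl
    have h2 : 2 * (D : ℝ) * |Rf i| ≤ 2 * (D : ℝ) * ∑ i ∈ (hfin (lv o i)).toFinset, |Rf i| :=
      mul_le_mul_of_nonneg_left h1 (by positivity)
    simp only [hR]
    linarith
  have hb : ∀ i a b, |c i a b| ≤ |Rf i| := fun i a b => (hRf i a b).trans (le_abs_self _)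
  have hconv : ∀ z, Adm z → ∀ i, Summable (fun p : Ix J × Ix J => |c i p.1 p.2 * z p.1 * z p.2|) ∧
      |qd c z i| ≤ R (lv o i) := by
    intro z hz i
    obtain ⟨h1, h2⟩ := absconv (c i) |Rf i| D (abs_nonneg _) (hb i) (hD i) z hz.sq hz.le
    exact ⟨h1, h2.trans (hRi i)⟩
  have hrem : ∀ z, Adm z → ∀ i P (Q : Finset (Ix J × Ix J)),
      (∀ p ∉ Q, c i p.1 p.2 ≠ 0 → ∃ j, (p.1 = Sum.inr j ∨ p.2 = Sum.inr j) ∧ P ≤ o j) →
      |qd c z i - ∑ p ∈ Q, c i p.1 p.2 * z p.1 * z p.2| ≤ R (lv o i) * tail o P z := by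
    intro z hz i P Q hQ
    obtain ⟨h1, h2⟩ := tail_eq o P z hz.oth
    have h0 : ∀ a, 0 ≤ (Sum.elim (fun _ : ℕ => (0 : ℝ))
        (fun j => if P ≤ o j then |z (Sum.inr j)| else 0)) a := by
      intro a
      rcases a with n | j
      · exact le_rfl
      · simp only [Sum.elim_inr]
        split_ifs
        · exact abs_nonneg _
        · exact le_rfl
    have h3 := rem (c i) |Rf i| D (abs_nonneg _) (hb i) (hD i) z (adm_one hz) (hconv z hz i).1
      _ h0 h1 Q (by
        intro p hp hc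
        obtain ⟨j, hj, hPj⟩ := hQ p hp hc
        rcases hj with hj | hj
        · left
          rw [hj, Sum.elim_inr, if_pos hPj]
        · right
          rw [hj, Sum.elim_inr, if_pos hPj])
    rw [h2] at h3
    have h4 : 0 ≤ tail o P z := by
      rw [← h2]
      exact tsum_nonneg h0
    exact h3.trans (mul_le_mul_of_nonneg_right (hRi i) h4)
  refine ⟨R, hR1, hconv, ?_, ?_⟩
  · intro w P
    have hQf : {p : Ix J × Ix J | c (Sum.inr w) p.1 p.2 ≠ 0 ∧
        ∀ j, p.1 = Sum.inr j ∨ p.2 = Sum.inr j → o j < P}.Finite := by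
      have hA : ((fun p : ℕ × ℕ => ((Sum.inl p.1 : Ix J), (Sum.inl p.2 : Ix J))) ''
        {p : ℕ × ℕ | c (Sum.inr w) (Sum.inl p.1) (Sum.inl p.2) ≠ 0}).Finite :=
        (hK.mfin w).image _
      have hB : (⋃ j ∈ {j | o j ≤ P}, (fun b : Ix J => ((Sum.inr j : Ix J), b)) ''
          {b | c (Sum.inr w) (Sum.inr j) b ≠ 0}).Finite :=
        (hK.fin P).biUnion (fun j _ => (hD (Sum.inr w) (Sum.inr j)).1.1.image _)
      have hC : (⋃ j ∈ {j | o j ≤ P}, (fun b : Ix J => (b, (Sum.inr j : Ix J))) ''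
          {b | c (Sum.inr w) b (Sum.inr j) ≠ 0}).Finite :=
        (hK.fin P).biUnion (fun j _ => (hD (Sum.inr w) (Sum.inr j)).2.1.image _)
      apply Set.Finite.subset ((hA.union hB).union hC)
      rintro ⟨a, b⟩ ⟨h1, h2⟩
      simp only at h1 h2
      rcases a with n | j
      · rcases b with m | j'
        · left; left
          exact ⟨(n, m), h1, rfl⟩
        · right
          rw [Set.mem_iUnion₂]
          refine ⟨j', (h2 j' (Or.inr rfl)).le, ?_⟩
          exact ⟨Sum.inl n, h1, rfl⟩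
      · left; right
        rw [Set.mem_iUnion₂]
        refine ⟨j, (h2 j (Or.inl rfl)).le, ?_⟩
        exact ⟨b, h1, rfl⟩
    refine ⟨hQf.toFinset, ?_, ?_, ?_⟩
    · intro p hp j hj
      rw [Set.Finite.mem_toFinset, Set.mem_setOf_eq] at hp
      exact hp.2 j hj
    · intro hτ hP
      rw [Finset.eq_empty_iff_forall_notMem]
      intro p hp
      rw [Set.Finite.mem_toFinset, Set.mem_setOf_eq] at hp
      obtain ⟨j, hj, hoj⟩ := hK.idle w hτ p.1 p.2 hp.1
      have := hp.2 j hj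
      omega
    · intro z hz
      apply hrem z hz (Sum.inr w) P
      intro p hp hc
      rw [Set.Finite.mem_toFinset, Set.mem_setOf_eq] at hp
      by_contra hcon
      push Not at hcon
      exact hp ⟨hc, hcon⟩
  · intro n z hz
    have h1 := hrem z hz (Sum.inl n) (n - 1)
      {((Sum.inl (n - 1) : Ix J), (Sum.inl (n - 1) : Ix J)),
        ((Sum.inl n : Ix J), (Sum.inl (n + 1) : Ix J))} (by
        rintro ⟨a, b⟩ hp hc
        rw [Finset.mem_insert, Finset.mem_singleton, not_or] at hp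
        simp only at hc ⊢
        by_cases hm : ∃ j, a = Sum.inr j ∨ b = Sum.inr j
        · obtain ⟨j, hj, hn⟩ := hK.sep n a b hc hm
          exact ⟨j, hj, by omega⟩
        · exfalso
          rcases a with p | j
          · rcases b with q | j
            · rw [hK.tab] at hc
              by_cases h2 : p = q ∧ n = p + 1
              · obtain ⟨h2, h3⟩ := h2
                subst h2
                apply hp.1
                have : n - 1 = p := by omega
                rw [this]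
              · by_cases h3 : p = n ∧ q = n + 1
                · obtain ⟨h3, h4⟩ := h3
                  subst h3
                  subst h4
                  exact hp.2 rfl
                · rw [if_neg h2, if_neg h3] at hc
                  exact hc (by ring)
            · exact hm ⟨j, Or.inr rfl⟩
          · exact hm ⟨j, Or.inl rfl⟩)
    have h2 : ∑ p ∈ ({((Sum.inl (n - 1) : Ix J), (Sum.inl (n - 1) : Ix J)),
        ((Sum.inl n : Ix J), (Sum.inl (n + 1) : Ix J))} : Finset (Ix J × Ix J)),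
        c (Sum.inl n) p.1 p.2 * z p.1 * z p.2 = cvf A (fun m => z (Sum.inl m)) n := by
      rw [Finset.sum_pair]
      · simp only
        rw [hK.tab, hK.tab]
        unfold cvf
        have e1 : ¬ (n = n + 1 ∧ n = n + 1) := by omega
        have e2 : ¬ (n - 1 = n ∧ n - 1 = n + 1) := by omega
        have e3 : (n = n ∧ n + 1 = n + 1) := ⟨rfl, rfl⟩
        rw [if_neg e1, if_neg e2, if_pos e3]
        by_cases hn : n = 0
        · have e4 : ¬ (n - 1 = n - 1 ∧ n = n - 1 + 1) := by omega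
          rw [if_neg e4, if_pos hn]
          ring
        · have e4 : (n - 1 = n - 1 ∧ n = n - 1 + 1) := by omega
          rw [if_pos e4, if_neg hn]
          ring
      · intro h
        rw [Prod.mk.injEq, Sum.inl.injEq, Sum.inl.injEq] at h
        omega
    rw [h2] at h1
    exact h1

end Pool.Agent.Y362.EK
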